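import Pool.Agent.Work.MP_dcf6a6_tv.Interface

/-!
# MP_dcf6a6_ag, block NZ (helper83): the variables do not vanish in `A`
-/

set_option autoImplicit false

namespace Pool.TVar.helper83

namespace NZ

variable {J K I B : Type} [Fintype J] [Fintype K] [Fintype B]
    [DecidableEq J] [DecidableEq K] [DecidableEq I] (D : Data J K I B)

/-- there is a point of the cone with nonzero coordinates -/
theorem exists_pt : ∃ x : J ⊕ K → ℂ, D.IsPt x ∧ ∀ v, x v ≠ 0 := by
  classical
  have h1 := D.squarefree.ne_zero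
  have h2 : ∃ s : K → ℂ,
      MvPolynomial.eval s ((∏ b, D.P b) * ∏ k, MvPolynomial.X k) ≠ 0 := by
    by_contra h
    push Not at h
    exact h1 (MvPolynomial.funext fun s => by rw [h s, map_zero])
  obtain ⟨s, hs⟩ := h2
  rw [map_mul, map_prod, map_prod] at hs
  have h3 : ∀ b, MvPolynomial.eval s (D.P b) ≠ 0 := fun b =>
    Finset.prod_ne_zero_iff.mp (left_ne_zero_of_mul hs) b (Finset.mem_univ _)
  have h4 : ∀ k, s k ≠ 0 := by
    intro k
    have h5 := Finset.prod_ne_zero_iff.mp (right_ne_zero_of_mul hs) k (Finset.mem_univ _)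
    rwa [MvPolynomial.eval_X] at h5
  choose g hg using D.ja_surj
  have hG : ∀ a, (∏ b with D.ba b = a, (MvPolynomial.eval s (D.P b)) ^ D.m b) ≠ 0 := by
    intro a
    rw [Finset.prod_ne_zero_iff]
    exact fun b _ => pow_ne_zero _ (h3 b)
  refine ⟨Sum.elim (fun j => if j = g (D.ja j) then
    ∏ b with D.ba b = D.ja j, (MvPolynomial.eval s (D.P b)) ^ D.m b else 1) s, ?_, ?_⟩
  · intro a
    have e1 : (fun k => (Sum.elim (fun j => if j = g (D.ja j) then
      ∏ b with D.ba b = D.ja j, (MvPolynomial.eval s (D.P b)) ^ D.m b else 1) s :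
        J ⊕ K → ℂ) (Sum.inr k)) = s := rfl
    rw [e1, Finset.prod_eq_single (g a)]
    · show (if g a = g (D.ja (g a)) then _ else _) = _
      rw [hg a, if_pos rfl]
    · intro j hj hne
      rw [Finset.mem_filter] at hj
      show (if j = g (D.ja j) then _ else _) = _
      rw [hj.2, if_neg hne]
    · intro h
      apply (h ?_).elim
      rw [Finset.mem_filter]
      exact ⟨Finset.mem_univ _, hg a⟩
  · rintro (j | k)
    · show (if j = g (D.ja j) then _ else _) ≠ (0 : ℂ)
      split_ifs
      · exact hG _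
      · exact one_ne_zero
    · exact h4 k

theorem eval_rel (x : J ⊕ K → ℂ) (hx : D.IsPt x) (a : I) :
    MvPolynomial.eval x (D.rel a) = 0 := by
  unfold Data.rel
  rw [map_sub, map_prod, map_prod, sub_eq_zero]
  have h := hx a
  calc ∏ j with D.ja j = a, MvPolynomial.eval x (MvPolynomial.X (Sum.inl j))
      = ∏ j with D.ja j = a, x (Sum.inl j) := by
        apply Finset.prod_congr rfl
        intro j _
        rw [MvPolynomial.eval_X]
    _ = _ := h
    _ = _ := by
        apply Finset.prod_congr rfl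
        intro b _
        rw [map_pow, MvPolynomial.eval_rename]
        rfl

end NZ

theorem stmt_NZ : Stmt_NZ := by
  intro J K I B _ _ _ _ _ _ D A _ _ 𝒜 _ pr v h
  obtain ⟨x, hx, hne⟩ := NZ.exists_pt D
  have h1 : MvPolynomial.X v ∈ RingHom.ker pr.π := h
  rw [pr.ker] at h1
  have h2 : Ideal.span (Set.range D.rel) ≤ RingHom.ker (MvPolynomial.eval x) := by
    rw [Ideal.span_le]
    rintro _ ⟨a, rfl⟩
    exact NZ.eval_rel D x hx a
  have h3 : MvPolynomial.eval x (MvPolynomial.X v) = 0 := h2 h1
  rw [MvPolynomial.eval_X] at h3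
  exact hne v h3

end Pool.TVar.helper83
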