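import Pool.Agent.Work.MP_dcf6a6_tv.Interface

/-!
# MP_dcf6a6_ag, block RHO (helper83): distinct nonzero pairs with prescribed products
-/

set_option autoImplicit false

namespace Pool.TVar.helper83

namespace RHO

theorem step {J : Type} (c : J → ℂ) (hc : ∀ j, c j ≠ 0) (s : Finset J) :
    ∃ ρ : J → ℂ, (∀ j, ρ j ≠ 0) ∧
      (∀ i ∈ s, ∀ j ∈ s, i ≠ j → ρ i ≠ ρ j ∧ c i / ρ i ≠ c j / ρ j) ∧
      ∀ i ∈ s, ∀ j ∈ s, ρ i ≠ c j / ρ j := by
  classical
  induction s using Finset.induction_on with
  | empty =>
    refine ⟨fun _ => 1, fun _ => one_ne_zero, ?_, ?_⟩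
    · intro i hi
      exact absurd hi (Finset.notMem_empty _)
    · intro i hi
      exact absurd hi (Finset.notMem_empty _)
  | insert a s ha ih =>
    obtain ⟨ρ, h1, h2, h3⟩ := ih
    obtain ⟨w, hw⟩ : ∃ w : ℂ, w ^ 2 = c a := IsAlgClosed.exists_pow_nat_eq _ (by norm_num)
    obtain ⟨r, hr⟩ := Infinite.exists_notMem_finset
      (({0, w, -w} : Finset ℂ) ∪ s.image ρ ∪ s.image (fun i => c a * ρ i / c i) ∪
        s.image (fun i => c i / ρ i) ∪ s.image (fun i => c a / ρ i))
    simp only [Finset.mem_union, Finset.mem_image, Finset.mem_insert, Finset.mem_singleton,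
      not_or, not_exists, not_and] at hr
    obtain ⟨⟨⟨⟨⟨r1, r2, r3⟩, r4⟩, r5⟩, r6⟩, r7⟩ := hr
    have ea : Function.update ρ a r a = r := Function.update_self _ _ _
    have es : ∀ i ∈ s, Function.update ρ a r i = ρ i := by
      intro i hi
      apply Function.update_of_ne
      rintro rfl
      exact ha hi
    have k1 : ∀ i ∈ s, c a / r ≠ c i / ρ i := by
      intro i hi h
      apply r5 i hi
      have h4 := hc i
      have h5 := h1 i
      field_simp at h ⊢
      linear_combination h
    have k2 : ∀ i ∈ s, ρ i ≠ c a / r := by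
      intro i hi h
      apply r7 i hi
      have h5 := h1 i
      field_simp at h ⊢
      linear_combination -h
    have k3 : r ≠ c a / r := by
      intro h
      have h4 : r ^ 2 = w ^ 2 := by
        rw [hw]
        field_simp at h
        linear_combination h
      rcases sq_eq_sq_iff_eq_or_eq_neg.mp h4 with h5 | h5
      · exact r2 h5
      · exact r3 h5
    refine ⟨Function.update ρ a r, ?_, ?_, ?_⟩
    · intro j
      by_cases h : j = a
      · rw [h, ea]
        exact r1
      · rw [Function.update_of_ne h]
        exact h1 j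
    · intro i hi j hj hij
      rcases Finset.mem_insert.mp hi with rfl | hi'
      · rcases Finset.mem_insert.mp hj with rfl | hj'
        · exact absurd rfl hij
        · rw [ea, es j hj']
          exact ⟨fun h => r4 j hj' h.symm, k1 j hj'⟩
      · rcases Finset.mem_insert.mp hj with rfl | hj'
        · rw [ea, es i hi']
          exact ⟨fun h => r4 i hi' h, fun h => k1 i hi' h.symm⟩
        · rw [es i hi', es j hj']
          exact h2 i hi' j hj' hij
    · intro i hi j hj
      rcases Finset.mem_insert.mp hi with rfl | hi'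
      · rcases Finset.mem_insert.mp hj with rfl | hj'
        · rw [ea]
          exact k3
        · rw [ea, es j hj']
          exact fun h => r6 j hj' h.symm
      · rcases Finset.mem_insert.mp hj with rfl | hj'
        · rw [ea, es i hi']
          exact k2 i hi'
        · rw [es i hi', es j hj']
          exact h3 i hi' j hj'

end RHO

theorem stmt_RHO : Stmt_RHO := by
  intro J _ c hc
  obtain ⟨ρ, h1, h2, h3⟩ := RHO.step c hc Finset.univ
  refine ⟨ρ, fun j => c j / ρ j, ?_, h1, fun j => div_ne_zero (hc j) (h1 j),
    fun j => mul_div_cancel₀ _ (h1 j)⟩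
  rintro (i | i) (j | j) h
  · by_contra h4
    exact (h2 i (Finset.mem_univ _) j (Finset.mem_univ _) fun h5 => h4 (congrArg _ h5)).1 h
  · exact absurd h (h3 i (Finset.mem_univ _) j (Finset.mem_univ _))
  · exact absurd h.symm (h3 j (Finset.mem_univ _) i (Finset.mem_univ _))
  · by_contra h4
    exact (h2 i (Finset.mem_univ _) j (Finset.mem_univ _) fun h5 => h4 (congrArg _ h5)).2 h

end Pool.TVar.helper83
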